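import Pool.Agent.MP_c1891a_nt.G43.SpecA

/-
The determinant estimate.
-/

namespace Pool.Agent.MP_c1891a_nt.G43

open Finset

section

variable {K : Type} [NormedField K] [IsUltrametricDist K] {ι : Type} [Fintype ι] [DecidableEq ι]

theorem aux_det_le (R : Matrix ι ι K) (r : ι → ℝ) (h0 : ∀ a, 0 ≤ r a)
    (h : ∀ a b, ‖R a b‖ ≤ r a) : ‖R.det‖ ≤ ∏ a, r a := by
  rw [Matrix.det_apply']
  refine IsUltrametricDist.norm_sum_le_of_forall_le_of_nonneg (prod_nonneg fun a _ => h0 a)
    fun σ _ => ?_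
  rw [norm_mul, norm_prod, ← Equiv.prod_comp σ r]
  refine (mul_le_of_le_one_left (prod_nonneg fun _ _ => norm_nonneg _)
    (IsUltrametricDist.norm_intCast_le_one K _)).trans ?_
  exact prod_le_prod (fun _ _ => norm_nonneg _) fun i _ => h _ _

theorem aux_core {T : Type} (w : T → ℕ) (Q : T → ι → K) (S : ι → Finset T) (P : ι → T → K)
    (E : ι → ι → K) (s η : ℝ) (W : ℕ) (hs : 0 ≤ s) (hs1 : s ≤ 1) (hη : 0 ≤ η) (hη1 : η ≤ 1)
    (hQ : ∀ τ b, ‖Q τ b‖ ≤ s ^ w τ) (hP : ∀ a τ, ‖P a τ‖ ≤ 1) (hE : ∀ a b, ‖E a b‖ ≤ η)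
    (hW : ∀ f : ι → T, Function.Injective f → W ≤ ∑ a, w (f a)) :
    ‖(Matrix.of fun a b => E a b + ∑ τ ∈ S a, P a τ * Q τ b).det‖ ≤ max η (s ^ W) := by
  classical
  let R : ι → Option T → ι → K := fun a o => o.elim (E a) Q
  let c : ι → Option T → K := fun a o => o.elim 1 (P a)
  have e : (Matrix.of fun a b => E a b + ∑ τ ∈ S a, P a τ * Q τ b) =
      fun a => ∑ o ∈ insertNone (S a), c a o • R a o := by
    funext a b
    rw [sum_insertNone]
    simp [R, c, Finset.sum_apply]
  have e2 := (Matrix.detRowAlternating (n := ι) (R := K)).toMultilinearMap.map_sum_finset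
    (fun a o => c a o • R a o) fun a => insertNone (S a)
  rw [e]
  refine le_trans (le_of_eq (congrArg norm e2)) ?_
  refine IsUltrametricDist.norm_sum_le_of_forall_le_of_nonneg (le_max_of_le_left hη) fun f _ => ?_
  rw [MultilinearMap.map_smul_univ, norm_smul, norm_prod]
  have hc : ∏ a, ‖c a (f a)‖ ≤ 1 := prod_le_one (fun _ _ => norm_nonneg _) fun a _ => by
    cases f a with
    | none => simp [c]
    | some τ => exact hP a τ
  refine (mul_le_of_le_one_left (norm_nonneg _) hc).trans ?_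
  change ‖(Matrix.of fun a => R a (f a)).det‖ ≤ _
  let r : Option T → ℝ := fun o => o.elim η fun τ => s ^ w τ
  have hr0 : ∀ o, 0 ≤ r o := fun o => by
    cases o with
    | none => exact hη
    | some τ => exact pow_nonneg hs _
  have hr1 : ∀ o, r o ≤ 1 := fun o => by
    cases o with
    | none => exact hη1
    | some τ => exact pow_le_one₀ hs hs1
  have hd := aux_det_le (Matrix.of fun a => R a (f a)) (fun a => r (f a)) (fun a => hr0 _)
    fun a b => by
      rw [Matrix.of_apply]
      cases f a with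
      | none => exact hE a b
      | some τ => exact hQ τ b
  by_cases hn : ∃ a, f a = none
  · obtain ⟨a, ha⟩ := hn
    refine hd.trans (le_max_of_le_left ?_)
    rw [← mul_prod_erase _ _ (mem_univ a), ha]
    exact mul_le_of_le_one_right hη (prod_le_one (fun _ _ => hr0 _) fun _ _ => hr1 _)
  · have hg : ∀ a, ∃ τ, f a = some τ := fun a => Option.ne_none_iff_exists'.1 fun h => hn ⟨a, h⟩
    choose g hg using hg
    by_cases hi : Function.Injective g
    · refine hd.trans (le_max_of_le_right ?_)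
      simp only [hg, r, Option.elim_some]
      rw [prod_pow_eq_pow_sum]
      exact pow_le_pow_of_le_one hs hs1 (hW g hi)
    · obtain ⟨a, a', h1, h2⟩ := Function.not_injective_iff.1 hi
      rw [Matrix.det_zero_of_row_eq h2 (by funext b; simp [hg, R, h1]), norm_zero]
      exact le_max_of_le_left hη

omit [DecidableEq ι] in
theorem aux_count {e n : ℕ} (V : ℕ) (f : ι → (_ : Fin e) × (Fin n →₀ ℕ))
    (hf : Function.Injective f) :
    V * (Fintype.card ι - e * V ^ n) ≤ ∑ a, ∑ i, (f a).2 i := by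
  classical
  have h1 : (univ.filter fun a => ∑ i, (f a).2 i < V).card ≤ e * V ^ n := by
    have : ((univ : Finset (Fin e)) ×ˢ Fintype.piFinset fun _ : Fin n => range V).card =
        e * V ^ n := by simp
    rw [← this]
    refine card_le_card_of_injOn (fun a => ((f a).1, fun i => (f a).2 i)) (fun a ha => ?_)
      fun a _ a' _ h => hf ?_
    · simp only [coe_filter, mem_univ, true_and, Set.mem_ofPred_eq] at ha
      simp only [coe_product, coe_univ, Set.mem_prod, Set.mem_univ, true_and, mem_coe,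
        Fintype.mem_piFinset, mem_range]
      exact fun i => (single_le_sum (f := fun i => (f a).2 i) (fun _ _ => Nat.zero_le _)
        (mem_univ i)).trans_lt ha
    · obtain ⟨h2, h3⟩ := Prod.mk.inj h
      exact Sigma.ext h2 (heq_of_eq (DFunLike.coe_injective h3))
  have h2 := card_filter_add_card_filter_not (s := (univ : Finset ι))
    fun a => ∑ i, (f a).2 i < V
  rw [card_univ] at h2
  calc V * (Fintype.card ι - e * V ^ n)
      ≤ (univ.filter fun a => ¬ ∑ i, (f a).2 i < V).card * V := by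
        rw [mul_comm]; exact Nat.mul_le_mul_right _ (by omega)
    _ ≤ ∑ a ∈ univ.filter fun a => ¬ ∑ i, (f a).2 i < V, ∑ i, (f a).2 i :=
        card_nsmul_le_sum _ _ V fun a ha => not_lt.1 (mem_filter.1 ha).2
    _ ≤ _ := sum_le_sum_of_subset (filter_subset _ _)

end

theorem aux_gn {K σ : Type} [NormedField K] (p : MvPolynomial σ K) (h : gn p ≤ 1) (β : σ →₀ ℕ) :
    ‖p.coeff β‖ ≤ 1 := by
  by_cases hβ : β ∈ p.support
  · exact_mod_cast (le_sup (f := fun α => ‖p.coeff α‖₊) hβ).trans h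
  · rw [MvPolynomial.notMem_support_iff.1 hβ]; simp

theorem aux_mon {K σ : Type} [NormedField K] (m : σ →₀ ℕ) :
    gn (MvPolynomial.monomial m (1 : K)) ≤ 1 := by
  classical
  refine Finset.sup_le fun α _ => ?_
  rw [MvPolynomial.coeff_monomial]
  split_ifs <;> simp

theorem sAux : SAux := by
  intro K _ _ k n e s H hnk hs hs1 hH
  have hH0 : 0 < H := one_pos.trans_le hH
  obtain ⟨t, ht⟩ := exists_pow_lt_of_lt_one (x := (H ^ (2 * k))⁻¹) (by positivity) hs1
  set D := 2 * e * t ^ n + 1 with hD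
  have hD0 : 0 < D := Nat.succ_pos _
  refine ⟨D, hD0, fun d σ Z ⟨U, G, hG, hL⟩ y hy => ?_⟩
  set N := D * D ^ k with hN
  have hB : 1 ≤ H ^ (k * D * D ^ k) := one_le_pow₀ hH
  set B := H ^ (k * D * D ^ k) with hBd
  have hη : 0 < (2 * B)⁻¹ := by positivity
  choose b hb1 hb2 using fun a : Fin k → Fin D =>
    hL (MvPolynomial.monomial (∑ i, Finsupp.single (σ i) (a i : ℕ)) 1) (aux_mon _) _ hη
  let x : (Fin k → Fin D) → Fin n → K := fun c i => ∑ l, (U i l : K) * y c l
  have hx : ∀ c i, ‖x c i‖ ≤ s := fun c i =>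
    IsUltrametricDist.norm_sum_le_of_forall_le_of_nonneg hs fun l _ => by
      rw [norm_mul]
      exact (mul_le_of_le_one_left (norm_nonneg _)
        (IsUltrametricDist.norm_intCast_le_one K _)).trans ((hy c).2 l)
  have key := aux_core (T := (_ : Fin e) × (Fin n →₀ ℕ)) (fun τ => ∑ i, τ.2 i)
    (fun τ c => (∏ i, x c i ^ τ.2 i) * G τ.1 (y c))
    (fun a => univ.sigma fun j => (b a j).support) (fun a τ => (b a τ.1).coeff τ.2)
    (fun a c => MvPolynomial.eval (y c)
      (MvPolynomial.monomial (∑ i, Finsupp.single (σ i) (a i : ℕ)) 1) -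
        ∑ j, MvPolynomial.eval (x c) (b a j) * G j (y c)) s (2 * B)⁻¹
    (t * D * (Fintype.card (Fin k → Fin D) - e * (t * D) ^ n)) hs hs1.le hη.le
    (inv_le_one_of_one_le₀ (by linarith)) (fun τ c => by
      rw [norm_mul, norm_prod, ← prod_pow_eq_pow_sum]
      refine (mul_le_of_le_one_right (prod_nonneg fun _ _ => norm_nonneg _)
        (hG _ _ (hy c).1)).trans (prod_le_prod (fun _ _ => norm_nonneg _) fun i _ => ?_)
      rw [norm_pow]
      exact pow_le_pow_left₀ (norm_nonneg _) (hx c i) _)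
    (fun a τ => aux_gn _ (hb1 a τ.1) _) (fun a c => hb2 a (y c) (hy c).1)
    fun f hf => aux_count _ f hf
  have e1 : (Matrix.of fun a c : Fin k → Fin D => ∏ i, y c (σ i) ^ (a i : ℕ)) =
      Matrix.of fun a c => (MvPolynomial.eval (y c)
        (MvPolynomial.monomial (∑ i, Finsupp.single (σ i) (a i : ℕ)) 1) -
          ∑ j, MvPolynomial.eval (x c) (b a j) * G j (y c)) +
        ∑ τ ∈ univ.sigma fun j => (b a j).support,
          (b a τ.1).coeff τ.2 * ((∏ i, x c i ^ τ.2 i) * G τ.1 (y c)) := by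
    ext a c
    rw [Matrix.of_apply, Matrix.of_apply, sum_sigma, MvPolynomial.monomial_sum_one]
    simp only [MvPolynomial.eval_eq' (x c), sum_mul, mul_assoc, sub_add_cancel, map_prod,
      ← MvPolynomial.X_pow_eq_monomial, map_pow, MvPolynomial.eval_X]
  rw [e1]
  refine (mul_le_mul_of_nonneg_right key (by linarith)).trans_lt ?_
  rw [max_mul_of_nonneg _ _ (by linarith)]
  refine max_lt ?_ ?_
  · rw [inv_mul_lt_iff₀ (by linarith)]; linarith
  · simp only [Fintype.card_pi, Fintype.card_fin, prod_const, card_univ]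
    set W := t * D * (D ^ k - e * (t * D) ^ n) with hW
    have h1 : 2 * (e * (t * D) ^ n) ≤ D ^ k := by
      calc 2 * (e * (t * D) ^ n) = 2 * e * t ^ n * D ^ n := by rw [mul_pow]; ring
        _ ≤ D * D ^ n := Nat.mul_le_mul_right _ (Nat.le_succ _)
        _ = D ^ (n + 1) := (pow_succ' D n).symm
        _ ≤ D ^ k := Nat.pow_le_pow_right hD0 hnk
    have h2 : t * N ≤ W * 2 := by
      rw [hW, hN, mul_assoc (t * D), ← mul_assoc t D]
      exact Nat.mul_le_mul_left _ (by omega)
    have h3 : s ^ t * H ^ (2 * k) < 1 := by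
      rwa [← lt_div_iff₀ (by positivity), one_div]
    have h4 : (s ^ W * B) ^ 2 < 1 := by
      calc (s ^ W * B) ^ 2 = s ^ (W * 2) * (H ^ (2 * k)) ^ N := by
            rw [mul_pow, hBd, ← pow_mul, ← pow_mul, ← pow_mul, hN]; congr 2; ring
        _ ≤ s ^ (t * N) * (H ^ (2 * k)) ^ N :=
            mul_le_mul_of_nonneg_right (pow_le_pow_of_le_one hs hs1.le h2) (by positivity)
        _ = (s ^ t * H ^ (2 * k)) ^ N := by rw [mul_pow, pow_mul]
        _ < 1 := pow_lt_one₀ (by positivity) h3 (by positivity)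
    exact (sq_lt_one_iff₀ (by positivity)).1 h4

end Pool.Agent.MP_c1891a_nt.G43
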